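import Pool.Agent.N110.PA.Stm
import Pool.Agent.N110.QNef

/-!
Project PA (helper110), part UP: if `B H - f^* H` is linearly equivalent to an effective divisor,
the degree of `f` is at most `C B`.
-/

set_option autoImplicit false
set_option linter.overlappingInstances false
set_option linter.unusedSectionVars false

open FF Module MvPolynomial Pool.Agent.W602.GT Pool.Agent.W603.LV
open Pool.Agent.Y172 Pool.Agent.Y191 Pool.Agent.R887 Pool.Agent.W619.PQ
open Pool.Agent.N110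

namespace Pool.Agent.N273.PA

section

variable {K : Type} [Field K] [Algebra ℂ K] {N n : ℕ} {y : Fin (N + 1) → K}

/-- the order of the elements of the standard space at a place -/
theorem hcls_ge (hy : NormalModel y) {i : Fin (N + 1)} (hi : y i ≠ 0) {Q : Place ℂ K}
    {l : Fin (N + 1)} (hl : Centred y l Q) :
    ∀ v ∈ (hcls hy hi).V, Ge Q (Q.ord (y l / y i)) v := by
  intro v hv
  change v ∈ Submodule.span ℂ (affS y i) at hv
  induction hv using Submodule.span_induction with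
  | mem x hx =>
    obtain ⟨k, rfl⟩ := hx
    change y k / y i = 0 ∨ Q.ord (y l / y i) ≤ Q.ord (y k / y i)
    by_cases hk : y k = 0
    · left
      rw [hk, zero_div]
    right
    have h2 := (Q.reg_iff (div_ne_zero hk hl.1)).1 (hl.2 k)
    have h3 : y k / y i = (y k / y l) * (y l / y i) := by
      have := hl.1
      field_simp
    rw [h3, Q.ord_mul (div_ne_zero hk hl.1) (div_ne_zero hl.1 hi)]
    omega
  | zero => exact Or.inl rfl
  | add x y _ _ h1 h2 => exact h1.add h2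
  | smul t x _ h1 =>
    rw [Algebra.smul_def]
    have h2 := (Ge.const (P := Q) t).mul h1
    rwa [zero_add] at h2

theorem ge_map {φ : K ≃ₐ[ℂ] K} {P : Place ℂ K} {r : ℤ} {v : K} (h : Ge (comap φ P) r v) :
    Ge P r (φ v) := by
  rcases h with h | h
  · left
    rw [h, map_zero]
  · right
    rwa [comap_ord] at h

/-- the comparison -/
theorem up_aux (hy : NormalModel y) (hn : Algebra.trdeg ℂ K = n) {i : Fin (N + 1)}
    (hi : y i ≠ 0) {Hy : Place ℂ K → ℚ}
    (hHP : ∀ P l, IsPrimeDivisor y P → Centred y l P → Hy P = P.ord (y i / y l))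
    (φ : K ≃ₐ[ℂ] K) (hφ : PseudoAut φ y) {B m : ℕ} {f : K} (hm : 1 ≤ m) (hf : f ≠ 0)
    (h : ∀ P, IsPrimeDivisor y P → (P.ord f : ℚ) + m * Hy (comap φ P) ≤ m * B * Hy P)
    {s : Multiset (Cls ℂ (affS y i))} (hs : s.card + 1 = n) :
    I (mapCls hy hi φ (hcls hy hi) ::ₘ s) ≤ B * I (hcls hy hi ::ₘ s) := by
  have cx := ctx hy hn hi
  obtain ⟨k, rfl⟩ : ∃ k, m = k + 1 := ⟨m - 1, by omega⟩
  obtain ⟨V, hV⟩ : ∃ V, V = mapCls hy hi φ (hcls hy hi) := ⟨_, rfl⟩
  rw [← hV]
  obtain ⟨D, hD⟩ : ∃ D, D = pw (fin_affS i) (one_affS hi) V k := ⟨_, rfl⟩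
  have h1 : (k + 1) * I (V ::ₘ s) ≤ I (D ::ₘ s) := by
    refine I_pow cx (by omega) (fun v hv => ?_) hs
    rw [hD]
    exact pw_mem hv k
  have h2 : I (D ::ₘ s) ≤ ((k + 1) * B) * I (hcls hy hi ::ₘ s) := by
    refine I_dom cx (H := hcls hy hi) (fun v hv => hv) (f := f⁻¹) (inv_ne_zero hf) ?_ hs
    intro g hg
    by_cases hg0 : g = 0
    · rw [hg0, mul_zero]
      intro P
      exact ⟨1, one_affS hi, one_ne_zero, by rw [P.ord_one, P.ord_zero]; simp⟩
    refine bnd_prime hy hi (mul_ne_zero (inv_ne_zero hf) hg0) fun P hP l hl => ?_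
    have hP' : IsPrimeDivisor y (comap φ P) := (hφ (comap φ P) P fun g => comap_ord φ P g).2 hP
    obtain ⟨l', hl'⟩ := exists_centred hy (comap φ P)
    obtain ⟨r, hr⟩ : ∃ r, r = (comap φ P).ord (y l' / y i) := ⟨_, rfl⟩
    have h3 : -(Hy (comap φ P)) = (r : ℚ) := by
      rw [hr]
      exact (ord_coord hy hi hHP hP' hl'.1).2 hl'
    have h4 : ∀ v ∈ V.V, Ge P r v := by
      rw [hV]
      rintro _ ⟨w, hw, rfl⟩
      refine ge_map ?_
      rw [hr]
      exact hcls_ge hy hi hl' w hw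
    rw [hD] at hg
    have h5 := (pw_ge h4 k g hg).resolve_left hg0
    have h6 := h P hP
    have h7 := hHP P l hP hl
    rw [P.ord_mul (inv_ne_zero hf) hg0, P.ord_inv]
    have h8 : (((k + 1 : ℕ) : ℤ) * r : ℚ) ≤ P.ord g := by exact_mod_cast h5
    have h9 : (0 : ℚ) ≤ ((-P.ord f + P.ord g + (((k + 1) * B : ℕ) : ℤ) * P.ord (y i / y l) : ℤ) : ℚ) := by
      push_cast at h6 h8 ⊢
      rw [h7] at h6
      have h10 : Hy (comap φ P) = -(r : ℚ) := by linarith
      rw [h10] at h6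
      linarith
    exact_mod_cast h9
  have h11 : (k + 1) * I (V ::ₘ s) ≤ (k + 1) * (B * I (hcls hy hi ::ₘ s)) := by
    refine (h1.trans h2).trans (le_of_eq ?_)
    ring
  exact Nat.le_of_mul_le_mul_left h11 (by omega)

end

theorem up : Pool.Agent.N110.PA.S_Up := by
  intro K _ _ N n y hy hn hn0 i hi Hy hHP
  obtain ⟨s, hs⟩ : ∃ s : Multiset (Cls ℂ (affS y i)),
    s = Multiset.replicate (n - 1) (hcls hy hi) := ⟨_, rfl⟩
  have hsc : s.card + 1 = n := by
    rw [hs, Multiset.card_replicate]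
    omega
  have hpos : 0 < I (hcls hy hi ::ₘ s) :=
    I_pos (ctx hy hn hi) (by rw [Multiset.card_cons]; exact hsc)
  refine ⟨(I (hcls hy hi ::ₘ s) : ℝ), by exact_mod_cast hpos, ?_⟩
  intro φ hφ B m f hm hf h
  rw [mixedDegree_eq hy hn hi φ (p := 1) (by omega)]
  have h1 := up_aux hy hn hi hHP φ hφ hm hf h hsc
  have e1 : Multiset.replicate 1 (mapCls hy hi φ (hcls hy hi)) +
      Multiset.replicate (n - 1) (hcls hy hi) = mapCls hy hi φ (hcls hy hi) ::ₘ s := by
    rw [Multiset.replicate_one, Multiset.singleton_add, hs]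
  rw [e1]
  have h2 : ENNReal.ofReal ((I (hcls hy hi ::ₘ s) : ℝ) * (B : ℝ)) =
      ((I (hcls hy hi ::ₘ s) * B : ℕ) : ENNReal) := by
    rw [← Nat.cast_mul, ENNReal.ofReal_natCast]
  rw [h2, Nat.cast_le]
  rw [mul_comm]
  exact h1

end Pool.Agent.N273.PA
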